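import Pool.Agent.Helper23.KB.St

/-!
# Kobon triangles: the capacity of plateau ends (`StPE`)
-/

namespace Pool.Agent.Helper24.KB

open Pool.Agent.Helper23.KB Finset

variable {n : ℕ} (K : KM n)

/-! ### local facts -/

lemma ln_r_ne (o : Bool) (h : K.H) : K.ln (K.r o h) ≠ K.ln h := by
  have h2 := K.two_le h
  cases o
  · intro e
    have h3 := K.ln_ne (K.r false h) 1 (by norm_num) (by rw [K.m_r]; omega)
    apply h3
    change K.ln (K.nx (K.r false h)) = _
    rw [e]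
    change K.ln (K.r true (K.r (!true) h)) = _
    rw [K.r_r']
  · exact K.ln_ne h 1 (by norm_num) (by omega)

/-- direction as a sign -/
def sg (d : Bool) : ℤ := if d then 1 else -1

lemma sg_not (d : Bool) : sg (!d) = - sg d := by cases d <;> rfl

lemma sg_ne (d : Bool) : sg d ≠ 0 := by cases d <;> decide

lemma ps_rv' {h : K.H} (hr : K.rv h ≠ h) : K.ps (K.rv h) = K.ps h + sg (K.dr h) :=
  K.ps_rv h hr

/-- the two neighbours on a line are different vertices -/
lemma vt_two {a : K.H} (h1 : K.rv a ≠ a) (h2 : K.rv (K.op a) ≠ K.op a) :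
    K.vt (K.rv a) ≠ K.vt (K.rv (K.op a)) := by
  intro e
  have h3 := K.ps_vt _ _ (by rw [K.ln_rv, K.ln_rv, K.ln_op']) e
  rw [ps_rv' K h1, ps_rv' K h2, K.ps_op, K.dr_op', sg_not] at h3
  have := sg_ne (K.dr a)
  omega

/-- no double edge between two simple vertices -/
lemma no_double {g : K.H} (hd : K.Dd g = true) (h1 : K.m g = 2) (h2 : K.m (K.rv g) = 2) :
    False := by
  have ht1 : K.tr true g = true := K.Dd_tr hd
  have ht2 : K.tr false g = true := K.Dd_tr hd
  have e1 := K.third ht1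
  have e2 := K.third ht2
  simp only [Bool.not_true, Bool.not_false] at e1 e2
  -- opposite half-edges
  have o1 : K.r false g = K.op (K.r true g) := K.r2' (o := true) h1
  have o2 : K.r false (K.rv g) = K.op (K.r true (K.rv g)) := K.r2' (o := true) h2
  have r1 : K.rv (K.r true g) ≠ K.r true g := by
    have : K.tr (!true) (K.r true g) = true := K.tr_r_self ht1
    exact K.tr_ray this
  have r2 : K.rv (K.r false g) ≠ K.r false g := by
    have : K.tr (!false) (K.r false g) = true := K.tr_r_self ht2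
    exact K.tr_ray this
  -- e1 : rv (r false (rv g)) = r true (rv (r true g))
  -- e2 : rv (r true (rv g)) = r false (rv (r false g))
  have l1 : K.ln (K.rv (K.r false (K.rv g))) ≠ K.ln (K.rv (K.r true g)) := by
    rw [e1]; exact ln_r_ne K _ _
  have v1 : K.vt (K.rv (K.r false (K.rv g))) = K.vt (K.rv (K.r true g)) := by
    rw [e1, K.vt_r]
  have v2 : K.vt (K.rv (K.r true (K.rv g))) = K.vt (K.rv (K.r false g)) := by
    rw [e2, K.vt_r]
  have := K.meet (K.rv (K.r true g)) (K.rv (K.r false (K.rv g))) (K.rv (K.r false g))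
    (K.rv (K.r true (K.rv g))) v1.symm v2.symm
    (by rw [K.ln_rv, K.ln_rv, o1, K.ln_op']) (by rw [K.ln_rv, K.ln_rv, o2, K.ln_op'])
    (Ne.symm l1)
  rw [o1] at this r2
  exact vt_two K r1 r2 this

/-- two consecutive simple neighbours of a triple vertex, in three consecutive triangles -/
lemma no_three {o : Bool} {t : K.H} (hd1 : K.Dd t = true) (hd2 : K.Dd (K.r o t) = true)
    (hv : K.m (K.rv t) = 2) (hw : K.m (K.rv (K.r o t)) = 2) (hm : K.m t = 3) : False := by
  have t1 : K.tr o t = true := K.Dd_tr hd1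
  have t0 : K.tr (!o) t = true := K.Dd_tr hd1
  have t2 : K.tr o (K.r o t) = true := K.Dd_tr hd2
  have e1 := K.third t1
  have e0 := K.third t0
  have e2 := K.third t2
  rw [Bool.not_not] at e0
  -- names
  obtain ⟨p, hp⟩ : ∃ p, p = K.rv t := ⟨_, rfl⟩
  obtain ⟨q, hq⟩ : ∃ q, q = K.rv (K.r o t) := ⟨_, rfl⟩
  obtain ⟨c, hc⟩ : ∃ c, c = K.r (!o) p := ⟨_, rfl⟩
  rw [← hp, ← hq, ← hc] at e1
  rw [← hp] at e0 hv
  rw [← hq] at e2 hw
  -- e1 : rv c = r o q ; e0 : rv (r o p) = r (!o) (rv (r (!o) t)); e2 : rv (r (!o) q) = r o (rv (r o (r o t)))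
  have d1 : K.r o p = K.op c := by
    have := K.r2' (o := !o) hv
    rw [Bool.not_not] at this
    rw [this, hc]
  have d2 : K.r (!o) q = K.op (K.rv c) := by rw [e1]; exact K.r2' hw
  -- rays
  have ttq : K.tr (!o) t = true := t0
  have tp : K.tr o p = true := by
    have := K.tr_rv t0
    rwa [Bool.not_not, ← hp] at this
  have tc : K.tr o c = true := by
    have h1 : K.tr (!o) p = true := by rw [hp]; exact K.tr_rv t1
    have := K.tr_r_self h1
    rwa [Bool.not_not, ← hc] at this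
  have tpo : K.tr (!o) (K.op c) = true := by
    rw [← d1]; exact K.tr_r_self tp
  have tq : K.tr (!o) q = true := by rw [hq]; exact K.tr_rv t2
  have tqo : K.tr o (K.op (K.rv c)) = true := by
    rw [← d2]
    have := K.tr_r_self tq
    rwa [Bool.not_not] at this
  have rc := K.tr_ray tc
  have rd := K.tr_ray tpo
  have re := K.tr_ray tqo
  -- the line of the third side
  have L : K.ln (K.r (!o) t) = K.ln (K.r o (K.r o t)) := by
    have := K.r3 (o := o) (h := K.r (!o) t) (by rw [K.m_r]; exact hm)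
    rw [K.r_r'] at this
    rw [this, K.ln_op']
  have v1 : K.vt (K.rv (K.op c)) = K.vt (K.rv (K.r (!o) t)) := by
    rw [← d1, e0, K.vt_r]
  have v2 : K.vt (K.rv (K.op (K.rv c))) = K.vt (K.rv (K.r o (K.r o t))) := by
    rw [← d2, e2, K.vt_r]
  have hne : K.ln (K.rv (K.op c)) ≠ K.ln (K.rv (K.r (!o) t)) := by
    rw [← d1, e0]; exact ln_r_ne K _ _
  have key := K.meet (K.rv (K.op c)) (K.rv (K.r (!o) t)) (K.rv (K.op (K.rv c)))
    (K.rv (K.r o (K.r o t))) v1 v2
    (by simp only [K.ln_rv, K.ln_op']) (by rw [K.ln_rv, K.ln_rv, L]) hne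
  have h3 := K.ps_vt _ _ (by simp only [K.ln_rv, K.ln_op']) key
  rw [ps_rv' K rd, ps_rv' K re, K.ps_op, K.ps_op, K.dr_op', K.dr_op', ps_rv' K rc,
    K.dr_rv c rc, Bool.not_not, sg_not] at h3
  have := sg_ne (K.dr c)
  omega

/-! ### costly vertices have no double half-edge -/

lemma cost_m {h : K.H} (hc : K.cost h = true) : K.m h = 2 := by
  unfold KM.cost KM.TO KM.TW at hc
  simp only [Bool.or_eq_true, Bool.and_eq_true, decide_eq_true_eq] at hc
  rcases hc with hc | hc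
  · exact hc.1.1.1
  · exact hc.1

/-- the four half-edges at a simple vertex -/
lemma four {x : K.H} (hx : K.m x = 2) : K.op x = K.nx (K.nx x) ∧
    K.nx.symm x = K.nx (K.nx (K.nx x)) ∧ K.nx (K.nx (K.nx (K.nx x))) = x := by
  have h1 : ∀ y : K.H, K.m y = 2 → K.op y = K.nx (K.nx y) := fun y hy => (K.r2 (o := true) hy).symm
  have hm1 : K.m (K.nx x) = 2 := by rw [K.m_nx]; exact hx
  have hm2 : K.m (K.nx (K.nx x)) = 2 := by rw [K.m_nx]; exact hm1
  have h4 : K.nx (K.nx (K.nx (K.nx x))) = x := by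
    rw [← h1 _ hm2, ← h1 _ hx]; exact K.op_op x
  refine ⟨h1 x hx, ?_, h4⟩
  rw [Equiv.symm_apply_eq]
  exact h4.symm

lemma cost_m' {h : K.H} (hm : K.m h ≠ 2) : K.cost h = false := by
  cases hc : K.cost h
  · rfl
  · exact absurd (cost_m K hc) hm

lemma cost_nx (h : K.H) : K.cost (K.nx h) = K.cost h := by
  by_cases hm : K.m h = 2
  · obtain ⟨a1, a2, a3⟩ := four K hm
    have hm1 : K.m (K.nx h) = 2 := by rw [K.m_nx]; exact hm
    obtain ⟨b1, b2, b3⟩ := four K hm1
    unfold KM.cost KM.TO KM.TW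
    rw [hm, hm1, a1, a2, b1, b2, a3]
    cases K.wg h <;> cases K.wg (K.nx h) <;> cases K.wg (K.nx (K.nx h)) <;>
      cases K.wg (K.nx (K.nx (K.nx h))) <;> cases K.tri h <;> cases K.tri (K.nx h) <;>
      cases K.tri (K.nx (K.nx h)) <;> cases K.tri (K.nx (K.nx (K.nx h))) <;> rfl
  · rw [cost_m' K hm, cost_m' K (h := K.nx h) (by rw [K.m_nx]; exact hm)]

lemma cost_r (o : Bool) (h : K.H) : K.cost (K.r o h) = K.cost h := by
  cases o
  · have := cost_nx K (K.nx.symm h)
    rw [Equiv.apply_symm_apply] at this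
    exact this.symm
  · exact cost_nx K h

lemma wg_tri {g : K.H} (hg : K.m g = 2) (hw : K.wg g = true) :
    K.tri g = true ∧ K.tri (K.nx g) = false ∧ K.tri (K.nx (K.nx g)) = false ∧
      K.tri (K.nx (K.nx (K.nx g))) = false := by
  have hopg : K.op g = K.nx (K.nx g) := (four K hg).1
  unfold KM.wg at hw
  simp only [Bool.and_eq_true, decide_eq_true_eq] at hw
  obtain ⟨⟨h1, h2⟩, h3⟩ := hw
  rw [hopg] at h2 h3
  refine ⟨h1, ?_, ?_, ?_⟩
  · have := K.tr_of_ray (o := false) h2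
    change K.tri (K.nx.symm (K.nx (K.nx g))) = false at this
    rwa [Equiv.symm_apply_apply] at this
  · exact K.tr_of_ray (o := true) h2
  · exact K.tr_of_ray (o := true) h3

/-- at a vertex of type `O` or `W` no half-edge is double -/
lemma cost_Dd {h : K.H} (hc : K.cost h = true) : K.Dd h = false := by
  have hm := cost_m K hc
  obtain ⟨a1, a2, a3⟩ := four K hm
  have hm1 : K.m (K.nx h) = 2 := by rw [K.m_nx]; exact hm
  have hm2 : K.m (K.nx (K.nx h)) = 2 := by rw [K.m_nx]; exact hm1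
  have hm3 : K.m (K.nx (K.nx (K.nx h))) = 2 := by rw [K.m_nx]; exact hm2
  cases hD : K.Dd h
  · rfl
  exfalso
  have hD' : K.tri h = true ∧ K.tri (K.nx.symm h) = true := by
    unfold KM.Dd at hD
    simpa using hD
  rw [a2] at hD'
  obtain ⟨d1, d2⟩ := hD'
  unfold KM.cost at hc
  rw [Bool.or_eq_true] at hc
  rcases hc with hc | hc
  · unfold KM.TO at hc
    rw [a1, a2, d1, d2] at hc
    cases t1 : K.tri (K.nx h) <;> cases t2 : K.tri (K.nx (K.nx h)) <;> simp_all
  · unfold KM.TW at hc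
    rw [a1, a2] at hc
    simp only [Bool.and_eq_true, Bool.or_eq_true, decide_eq_true_eq] at hc
    rcases hc.2 with ((hw | hw) | hw) | hw
    · have := wg_tri K hm hw
      rw [d2] at this
      simp at this
    · have := wg_tri K hm1 hw
      rw [a3, d1] at this
      simp at this
    · have := wg_tri K hm2 hw
      rw [a3, d1] at this
      simp at this
    · have := wg_tri K hm3 hw
      rw [a3] at this
      obtain ⟨_, h2, _⟩ := this
      rw [d1] at h2
      cases h2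

/-- no double half-edge next to it -/
lemma not_cost {o : Bool} {h : K.H} (hd : K.Dd (K.r o h) = true) : K.cost h = false := by
  cases hc : K.cost h
  · rfl
  · rw [← cost_r K o h] at hc
    rw [cost_Dd K hc] at hd
    cases hd

/-! ### colours -/

/-- the colour of the sector on side `o` -/
def colS (o : Bool) (h : K.H) : Bool := if o then K.col h else K.col (K.nx.symm h)

lemma colS_not (o : Bool) (h : K.H) : colS K (!o) h = !(colS K o h) := by
  cases o
  · change K.col h = !(K.col (K.nx.symm h))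
    rw [K.col_symm, Bool.not_not]
  · exact K.col_symm h

lemma colS_nx (o : Bool) (h : K.H) : colS K o (K.nx h) = !(colS K o h) := by
  cases o
  · change K.col (K.nx.symm (K.nx h)) = !(K.col (K.nx.symm h))
    rw [Equiv.symm_apply_apply, K.col_symm, Bool.not_not]
  · exact K.col_nx h

lemma colS_op2 {o : Bool} {h : K.H} (hm : K.m h = 2) : colS K o (K.op h) = colS K o h := by
  rw [(four K hm).1, colS_nx, colS_nx, Bool.not_not]

lemma colS_op3 {o : Bool} {h : K.H} (hm : K.m h = 3) : colS K o (K.op h) = !(colS K o h) := by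
  have : K.op h = K.nx (K.nx (K.nx h)) := (K.r3 (o := true) hm).symm
  rw [this, colS_nx, colS_nx, colS_nx, Bool.not_not]

lemma cs_eq {o : Bool} {h : K.H} (h1 : K.tr o h = true) (h2 : K.tr (!o) h = false) :
    K.cs h = colS K o h := by
  unfold KM.cs colS
  cases o
  · simp only [Bool.not_false, KM.tr_true] at h2
    rw [h2]
  · simp only [KM.tr_true] at h1
    rw [h1]

lemma Sg_of {o : Bool} {h : K.H} (h1 : K.tr o h = true) (h2 : K.tr (!o) h = false) :
    K.Sg h = true := by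
  rw [K.Sg_iff o, h1, h2]; rfl

lemma tr_of_Sg {o : Bool} {h : K.H} (hs : K.Sg h = true) (h1 : K.tr o h = true) :
    K.tr (!o) h = false := by
  rw [K.Sg_iff o, h1] at hs
  cases h2 : K.tr (!o) h
  · rfl
  · rw [h2] at hs; cases hs

/-- the triangle seen from the next half-edge -/
lemma tr_of_Dd {o : Bool} {h : K.H} (hd : K.Dd (K.r o h) = true) : K.tr o h = true := by
  rw [← K.tr_r]
  exact K.Dd_tr hd

/-! ### full vertices -/

lemma vf_spec {h : K.H} (hv : K.vf h = true) :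
    K.m h = 4 ∧ ∀ k : ℕ, K.tri (K.nx^[k] h) = true := by
  unfold KM.vf at hv
  simp only [Bool.and_eq_true, decide_eq_true_eq] at hv
  obtain ⟨hm, hk⟩ := hv
  refine ⟨hm, ?_⟩
  have hper : K.nx^[8] h = h := by
    have := K.per h
    rwa [hm] at this
  have hper' : ∀ q : ℕ, K.nx^[8 * q] h = h := by
    intro q
    induction q with
    | zero => rfl
    | succ q ih =>
      rw [Nat.mul_succ, Function.iterate_add_apply, hper, ih]
  intro k
  have : K.nx^[k] h = K.nx^[k % 8] h := by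
    conv_lhs => rw [← Nat.mod_add_div k 8, Function.iterate_add_apply, hper']
  rw [this]
  exact hk ⟨k % 8, Nat.mod_lt _ (by norm_num)⟩

lemma vf_Dd {h : K.H} (hv : K.vf h = true) (k : ℕ) : K.Dd (K.nx^[k] h) = true := by
  obtain ⟨hm, hk⟩ := vf_spec K hv
  have hper : K.nx^[8] h = h := by
    have := K.per h
    rwa [hm] at this
  have e : K.nx.symm (K.nx^[k] h) = K.nx^[k + 7] h := by
    rw [Equiv.symm_apply_eq, ← Function.iterate_succ_apply' (f := K.nx), Nat.succ_eq_add_one,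
      Function.iterate_add_apply (f := K.nx) k 8, hper]
  unfold KM.Dd
  rw [Bool.and_eq_true]
  refine ⟨hk k, ?_⟩
  change K.tri (K.nx.symm (K.nx^[k] h)) = true
  rw [e]
  exact hk _

lemma vf_Dd_r {h : K.H} (hv : K.vf h = true) (o : Bool) : K.Dd (K.r o h) = true := by
  cases o
  · obtain ⟨hm, hk⟩ := vf_spec K hv
    have hper : K.nx^[8] h = h := by
      have := K.per h
      rwa [hm] at this
    have : K.nx.symm h = K.nx^[7] h := by
      rw [Equiv.symm_apply_eq, ← Function.iterate_succ_apply' (f := K.nx)]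
      exact hper.symm
    change K.Dd (K.nx.symm h) = true
    rw [this]
    exact vf_Dd K hv 7
  · exact vf_Dd K hv 1

/-! ### the seven requests -/

lemma f1 {o : Bool} {h : K.H} (hh : K.a1 (!o) (K.r o h) = true) :
    K.m h = 2 ∧ K.Dd (K.r o h) = true ∧ K.cost (K.rv h) = false ∧ K.tr (!o) h = false ∧
      K.Dd (K.op h) = false := by
  unfold KM.a1 KM.e2 KM.cw at hh
  simp only [Bool.and_eq_true, decide_eq_true_eq, Bool.not_eq_true', K.r_r, K.m_r] at hh
  obtain ⟨⟨⟨h1, h2⟩, h3⟩, h4⟩ := hh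
  rw [← K.r2' h1] at h3
  have h5 := K.tr_of_ray (o := o) h3
  rw [K.tr_r'] at h5
  refine ⟨h1, h2, h4, h5, ?_⟩
  have h6 := K.tr_of_ray (o := !o) h3
  have h7 : K.r (!o) (K.r (!o) h) = K.op h := K.r2 h1
  have h8 := K.tr_r (!o) (K.r (!o) h)
  rw [h7, h6, Bool.not_not] at h8
  cases hD : K.Dd (K.op h)
  · rfl
  · rw [K.Dd_tr hD] at h8
    cases h8

lemma f2 {o : Bool} {h : K.H} (hh : K.a2 o (K.r (!o) (K.rv h)) = true) :
    K.m (K.rv h) = 2 ∧ K.Dd (K.r (!o) (K.rv h)) = true ∧ K.rv (K.r o (K.rv h)) = K.r o (K.rv h) ∧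
      K.cost h = false ∧ K.cost (K.rv (K.op (K.rv h))) = true ∧
      K.m (K.rv (K.r (!o) (K.rv h))) = 3 := by
  unfold KM.a2 KM.e2 KM.cw at hh
  simp only [Bool.and_eq_true, decide_eq_true_eq, Bool.not_eq_true', K.r_r', K.m_r,
    K.rv_rv] at hh
  obtain ⟨⟨⟨⟨⟨h1, h2⟩, h3⟩, h4⟩, h5⟩, h6⟩ := hh
  have e := K.r2' (o := !o) h1
  rw [Bool.not_not] at e
  rw [← e] at h3
  rw [K.r2 h1] at h5
  exact ⟨h1, h2, h3, h4, h5, h6⟩

/-- the geometry of a vertex of type T4a -/
lemma f4 {o : Bool} {h : K.H} (hh : K.t4 (K.rv (K.r (!o) (K.r (!o) h))) = true) :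
    K.m h = 3 ∧ K.Sg h = true ∧ K.Dd (K.r o h) = true ∧ K.Dd (K.r o (K.r o h)) = false ∧
      K.outc h = true ∧ K.op (K.r (!o) (K.r (!o) h)) = K.r o h := by
  unfold KM.t4 KM.bth KM.e2 KM.cw at hh
  simp only [Bool.and_eq_true, decide_eq_true_eq, K.rv_rv, K.m_r] at hh
  obtain ⟨⟨⟨⟨⟨⟨⟨⟨h1, h2⟩, h3⟩, h4⟩, h5⟩, h6⟩, h7⟩, h8⟩, h9⟩ := hh
  have hcw : ∀ o', K.cost (K.rv (K.r o' (K.rv (K.r (!o) (K.r (!o) h))))) = true := by
    intro o'; cases o'
    · exact h5
    · exact h4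
  have hyy : ∀ o', K.Sg (K.yy o' (K.rv (K.r (!o) (K.r (!o) h)))) = true := by
    intro o'; cases o'
    · exact h8
    · exact h7
  have hS : K.Sg h = true := by
    have := hyy (!o)
    unfold KM.yy at this
    rw [K.rv_rv, Bool.not_not, K.r_r', K.r_r'] at this
    exact this
  have e3 : K.r (!o) (K.r (!o) (K.r (!o) h)) = K.op h := K.r3 h6
  have eop : K.op (K.r (!o) (K.r (!o) h)) = K.r o h := by
    apply K.r_inj (!o)
    rw [K.r_r, ← K.op_r, e3, K.op_op]
  rw [eop] at h9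
  have e4 : K.r (!o) (K.r (!o) (K.r (!o) (K.r (!o) h))) = K.r o (K.r o h) := by
    have e3' : K.r (!o) (K.r (!o) (K.r (!o) (K.r (!o) h))) = K.r (!o) (K.op h) := by rw [e3]
    rw [e3', ← K.op_r]
    apply K.r_inj (!o)
    rw [K.r_r, ← K.op_r, eop]
  have hS2 : K.Sg (K.r o (K.r o h)) = true := by
    have := hyy o
    unfold KM.yy at this
    rw [K.rv_rv, e4] at this
    exact this
  have hD2 : K.Dd (K.r o (K.r o h)) = false := by
    cases hD : K.Dd (K.r o (K.r o h))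
    · rfl
    · have := K.Dd_not_Sg hD
      rw [hS2] at this
      cases this
  refine ⟨h6, hS, h9, hD2, ?_, eop⟩
  -- outc
  have htd : K.tr o (K.op h) = true := by
    rw [← e3, K.tr_r']
    have h2' : K.Dd (K.r (!o) (K.r (!o) h)) = true := by rw [K.Dd_rv] at h2; exact h2
    exact K.Dd_tr h2'
  have htd' : K.tr (!o) (K.op h) = false := by
    have a1 : K.tr o (K.r (!o) (K.op h)) = K.tr (!o) (K.op h) := K.tr_r' o _
    rw [← a1]
    have a2 : K.r (!o) (K.op h) = K.r o (K.r o h) := by rw [← e3]; exact e4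
    rw [a2]
    have a3 : K.tr (!o) (K.r o (K.r o h)) = true := by
      rw [K.tr_r]; exact K.Dd_tr h9
    have := tr_of_Sg K hS2 a3
    rwa [Bool.not_not] at this
  have hth : K.tr o h = true := tr_of_Dd K h9
  have hth' := tr_of_Sg K hS hth
  unfold KM.outc
  rw [Bool.and_eq_true, Bool.and_eq_true]
  refine ⟨⟨Sg_of K htd htd', ?_⟩, ?_⟩
  · rw [cs_eq K htd htd', cs_eq K hth hth', colS_op3 K h6]
    cases colS K o h <;> rfl
  · have h2' : K.Dd (K.r (!o) (K.r (!o) h)) = true := by rw [K.Dd_rv] at h2; exact h2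
    have e5 := K.third (o := !o) (K.Dd_tr h2')
    rw [Bool.not_not, e3] at e5
    have := hcw o
    rw [e5, cost_r] at this
    exact this

lemma f5 {o : Bool} {h : K.H} (hh : K.v1 (!o) (K.r o h) = true) :
    K.m h = 2 ∧ K.Dd (K.r o h) = true ∧ K.Sg h = true ∧ K.Dd (K.op h) = true ∧
      K.m (K.rv (K.r o h)) = 4 ∧ K.cost (K.rv h) = false := by
  unfold KM.v1 KM.ims at hh
  simp only [Bool.and_eq_true, decide_eq_true_eq, Bool.not_eq_true', K.rv_rv, K.m_r, K.r_r,
    Bool.not_not] at hh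
  obtain ⟨⟨⟨⟨h1, h2⟩, h3⟩, h4⟩, h5⟩ := hh
  rw [K.r2 h2] at h5
  have hd : K.Dd (K.r o h) = true := by
    rw [← K.Dd_rv]
    exact vf_Dd K h1 0
  refine ⟨h2, hd, h4, h5, (vf_spec K h1).1, ?_⟩
  have e := K.third (tr_of_Dd K hd)
  apply not_cost K (o := !o)
  rw [← K.Dd_rv, e]
  exact vf_Dd_r K h1 o

lemma f6 (hF : StPayF) {o : Bool} {h : K.H} (hh : K.pB (K.r (!o) (K.rv h), o) = true) :
    K.m (K.rv h) = 2 ∧ K.Sg h = true ∧ K.Dd (K.r (!o) (K.rv h)) = true ∧ 3 ≤ K.m h ∧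
      K.Dd (K.r o h) = true ∧ K.Dd (K.r o (K.r o h)) = true ∧
      K.cost (K.rv (K.op (K.rv h))) = false := by
  unfold KM.pB at hh
  rw [Bool.and_eq_true] at hh
  obtain ⟨hp, hs⟩ := hh
  simp only [K.r_r', K.Sg_rv] at hs
  obtain ⟨g1, g2, g3, g4, g5, g6, g7⟩ := hF n K _ hp
  simp only [K.m_r] at g1 g2 g3 g4 g5 g6 g7
  have hth : K.tr o h = true := by
    have h1 : K.tr o (K.r (!o) (K.rv h)) = true := K.Dd_tr g2
    rw [K.tr_r'] at h1
    have h2 := K.tr_rv h1
    rwa [Bool.not_not, K.rv_rv] at h2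
  have e := K.third hth
  rw [e, K.r_r] at g4 g5 g6
  rw [K.rv_rv] at g5 g6
  rw [K.Dd_rv] at g4
  rw [K.m_r] at g5
  refine ⟨g1, hs, g2, g5, g4, g6, ?_⟩
  unfold KM.nc at g7
  simp only [Bool.not_eq_true'] at g7
  rw [K.r2 g1] at g7
  exact g7

lemma f7 (hF : StPayF) {o : Bool} {h : K.H} (hh : K.pX (K.r o h, o) = true) :
    K.m h = 2 ∧ K.Dd (K.r o h) = true ∧ K.Sg h = true ∧ K.Dd (K.op h) = true ∧
      K.m (K.rv (K.r o h)) = 3 ∧ K.cost (K.rv h) = false := by
  unfold KM.pX at hh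
  rw [Bool.and_eq_true, Bool.and_eq_true] at hh
  obtain ⟨⟨hp, hd⟩, hs⟩ := hh
  obtain ⟨g1, g2, g3, g4, g5, g6, g7⟩ := hF n K _ hp
  simp only [K.m_r, K.r_r] at g1 g2 g3 g4 g5 g6 g7 hd hs
  rw [K.r2 g1] at hd
  unfold KM.nc at g7
  simp only [Bool.not_eq_true', K.r_r] at g7
  exact ⟨g1, g2, hs, hd, g3, g7⟩

lemma f3 {o : Bool} {h : K.H} (hh : K.a3 (!o) (K.rv (K.r (!o) (K.r (!o) h))) = true) :
    K.t4 (K.rv (K.r (!o) (K.r (!o) h))) = true ∧ K.cost (K.rv h) = false := by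
  unfold KM.a3 KM.yy at hh
  simp only [Bool.and_eq_true, K.rv_rv, Bool.not_not, K.r_r', Bool.not_eq_true'] at hh
  exact hh.1

lemma f4' {o : Bool} {h : K.H} (hh : K.a4 o (K.rv (K.r o (K.r o (K.rv h)))) = true) :
    K.t4 (K.rv (K.r o (K.r o (K.rv h)))) = true ∧ K.cost h = false ∧
      K.m (K.rv (K.op (K.r o (K.r o (K.rv h))))) = 2 := by
  unfold KM.a4 KM.yy KM.qq at hh
  simp only [Bool.and_eq_true, K.rv_rv, K.r_r, Bool.not_eq_true', decide_eq_true_eq] at hh
  obtain ⟨⟨⟨⟨h1, h2⟩, h3⟩, h4⟩, h5⟩ := hh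
  exact ⟨h1, h4, h2⟩

/-- common part of all requests -/
def Bs (o : Bool) (h : K.H) : Prop :=
  K.tr o h = true ∧ K.tr (!o) h = false ∧ K.cost h = false ∧ K.cost (K.rv h) = false

lemma tr_far {o : Bool} {h : K.H} (ht : K.tr (!o) (K.rv h) = true) : K.tr o h = true := by
  have := K.tr_rv ht
  rwa [Bool.not_not, K.rv_rv] at this

lemma bs1 {o : Bool} {h : K.H} (hh : K.a1 (!o) (K.r o h) = true) : Bs K o h := by
  obtain ⟨h1, h2, h3, h4, _⟩ := f1 K hh
  exact ⟨tr_of_Dd K h2, h4, not_cost K h2, h3⟩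

lemma bs2 {o : Bool} {h : K.H} (hh : K.a2 o (K.r (!o) (K.rv h)) = true) : Bs K o h := by
  obtain ⟨h1, h2, h3, h4, h5, h6⟩ := f2 K hh
  have a1 : K.tr o h = true := tr_far K (tr_of_Dd K h2)
  have a2 : K.tr o (K.rv h) = false := by
    rw [← K.tr_r o (K.rv h)]
    exact K.tr_of_ray h3
  refine ⟨a1, ?_, h4, not_cost K h2⟩
  cases h7 : K.tr (!o) h
  · rfl
  · have := K.tr_rv h7
    rw [Bool.not_not, a2] at this
    cases this

lemma bs3 {o : Bool} {h : K.H} (hh : K.a3 (!o) (K.rv (K.r (!o) (K.r (!o) h))) = true) :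
    Bs K o h := by
  obtain ⟨h1, h2⟩ := f3 K hh
  obtain ⟨g1, g2, g3, g4, g5, g6⟩ := f4 K h1
  exact ⟨tr_of_Dd K g3, tr_of_Sg K g2 (tr_of_Dd K g3), cost_m' K (by omega), h2⟩

lemma f4b {o : Bool} {h : K.H} (hh : K.t4 (K.rv (K.r o (K.r o (K.rv h)))) = true) :
    K.m (K.rv h) = 3 ∧ K.Sg h = true ∧ K.Dd (K.r (!o) (K.rv h)) = true ∧
      K.outc (K.rv h) = true ∧ K.op (K.r o (K.r o (K.rv h))) = K.r (!o) (K.rv h) := by
  have := f4 K (o := !o) (h := K.rv h) (by rw [Bool.not_not]; exact hh)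
  obtain ⟨g1, g2, g3, g4, g5, g6⟩ := this
  rw [Bool.not_not] at g6
  rw [K.Sg_rv] at g2
  exact ⟨g1, g2, g3, g5, g6⟩

lemma bs4 {o : Bool} {h : K.H} (hh : K.a4 o (K.rv (K.r o (K.r o (K.rv h)))) = true) :
    Bs K o h := by
  obtain ⟨h1, h2, h3⟩ := f4' K hh
  obtain ⟨g1, g2, g3, g5, g6⟩ := f4b K h1
  have a1 : K.tr o h = true := tr_far K (tr_of_Dd K g3)
  exact ⟨a1, tr_of_Sg K g2 a1, h2, cost_m' K (by omega)⟩

lemma bs5 {o : Bool} {h : K.H} (hh : K.v1 (!o) (K.r o h) = true) : Bs K o h := by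
  obtain ⟨h1, h2, h3, h4, h5, h6⟩ := f5 K hh
  exact ⟨tr_of_Dd K h2, tr_of_Sg K h3 (tr_of_Dd K h2), not_cost K h2, h6⟩

lemma bs6 (hF : StPayF) {o : Bool} {h : K.H} (hh : K.pB (K.r (!o) (K.rv h), o) = true) :
    Bs K o h := by
  obtain ⟨h1, h2, h3, h4, h5, h6, h7⟩ := f6 K hF hh
  exact ⟨tr_of_Dd K h5, tr_of_Sg K h2 (tr_of_Dd K h5), not_cost K h5, not_cost K h3⟩

lemma bs7 (hF : StPayF) {o : Bool} {h : K.H} (hh : K.pX (K.r o h, o) = true) :
    Bs K o h := by
  obtain ⟨h1, h2, h3, h4, h5, h6⟩ := f7 K hF hh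
  exact ⟨tr_of_Dd K h2, tr_of_Sg K h3 (tr_of_Dd K h2), not_cost K h2, h6⟩

lemma Bs_Pi {o : Bool} {h : K.H} (hb : Bs K o h) : K.Pi1 h = true := by
  obtain ⟨h1, h2, h3, h4⟩ := hb
  have hs := Sg_of K h1 h2
  unfold KM.Pi1 KM.PE
  rw [K.Sg_rv, hs, h3, h4]
  rfl

lemma Bs_other {o : Bool} {h : K.H} (h1 : Bs K o h) (h2 : Bs K (!o) h) : False := by
  have a := h1.1
  have b := h2.2.1
  rw [Bool.not_not, a] at b
  cases b

/-! ### conflicts -/

/-- no type E2 at the far end with a triple apex if the near vertex is simple with a double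
half-edge to the apex -/
lemma no2 {o : Bool} {h : K.H} (h2 : K.a2 o (K.r (!o) (K.rv h)) = true) (hm : K.m h = 2)
    (hd : K.Dd (K.r o h) = true) : False := by
  obtain ⟨g1, g2, g3, g4, g5, g6⟩ := f2 K h2
  have e := K.third (tr_of_Dd K hd)
  have e2 : K.rv (K.r o (K.rv (K.r o h))) = K.r (!o) (K.rv h) := by rw [← e, K.rv_rv]
  refine no_three K (o := o) (t := K.rv (K.r o h)) (by rw [K.Dd_rv]; exact hd) ?_ ?_ ?_ ?_
  · rw [← e, K.Dd_rv]; exact g2
  · rw [K.rv_rv, K.m_r]; exact hm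
  · rw [e2, K.m_r]; exact g1
  · rw [e, K.m_r] at g6; exact g6

lemma no4 {o : Bool} {h : K.H} (h4 : K.a4 o (K.rv (K.r o (K.r o (K.rv h)))) = true)
    (hm : K.m h = 2) (hd : K.Dd (K.r o h) = true) : False := by
  obtain ⟨h1, h2, h3⟩ := f4' K h4
  obtain ⟨g1, g2, g3, g5, g6⟩ := f4b K h1
  have e := K.third (tr_of_Dd K hd)
  rw [g6, e, K.m_r] at h3
  exact no_double K hd (by rw [K.m_r]; exact hm) h3

/-- the edge beyond a vertex of type E2 -/
lemma outc2 {o : Bool} {h : K.H} (h2 : K.a2 o (K.r (!o) (K.rv h)) = true) :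
    K.outc (K.rv h) = true := by
  obtain ⟨g1, g2, g3, g4, g5, g6⟩ := f2 K h2
  have a1 : K.r (!o) (K.r (!o) (K.rv h)) = K.op (K.rv h) := K.r2 g1
  have t1 : K.tr o (K.op (K.rv h)) = true := by
    rw [← a1, K.tr_r']; exact K.Dd_tr g2
  have t2 : K.tr (!o) (K.op (K.rv h)) = false := by
    have b1 : K.r o (K.rv h) = K.r (!o) (K.op (K.rv h)) := by
      have := K.r2' (o := !o) g1
      rw [Bool.not_not, ← K.op_r] at *
      exact this
    rw [← K.tr_r' o, ← b1]
    exact K.tr_of_ray g3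
  have t3 : K.tr (!o) (K.rv h) = true := tr_of_Dd K g2
  have t4 : K.tr (!(!o)) (K.rv h) = false := by
    rw [Bool.not_not, ← K.tr_r o (K.rv h)]
    exact K.tr_of_ray g3
  unfold KM.outc
  rw [Bool.and_eq_true, Bool.and_eq_true]
  refine ⟨⟨Sg_of K t1 t2, ?_⟩, g5⟩
  rw [cs_eq K t1 t2, cs_eq K t3 t4, colS_op2 K g1, colS_not]
  cases colS K o (K.rv h) <;> rfl

lemma Bo_of {o : Bool} {h : K.H} (hb : Bs K o h) (h1 : K.outc h = true)
    (h2 : K.outc (K.rv h) = true) : K.Bo h = true := by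
  unfold KM.Bo
  rw [Bs_Pi K hb, h1, h2]
  rfl

/-- the seven requests of one side -/
noncomputable def T7 (o : Bool) (h : K.H) : ℕ :=
  (K.a1 (!o) (K.r o h)).toNat + (K.a2 o (K.r (!o) (K.rv h))).toNat +
  (K.a3 (!o) (K.rv (K.r (!o) (K.r (!o) h)))).toNat +
  (K.a4 o (K.rv (K.r o (K.r o (K.rv h))))).toNat +
  (K.v1 (!o) (K.r o h)).toNat + (K.pB (K.r (!o) (K.rv h), o)).toNat + (K.pX (K.r o h, o)).toNat

lemma T7_zero (hF : StPayF) {o : Bool} {h : K.H} (hb : ¬ Bs K o h) : T7 K o h = 0 := by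
  have g : ∀ b : Bool, (b = true → False) → b.toNat = 0 := by
    intro b hb; cases b
    · rfl
    · exact (hb rfl).elim
  unfold T7
  rw [g _ (fun x => hb (bs1 K x)), g _ (fun x => hb (bs2 K x)), g _ (fun x => hb (bs3 K x)),
    g _ (fun x => hb (bs4 K x)), g _ (fun x => hb (bs5 K x)), g _ (fun x => hb (bs6 K hF x)),
    g _ (fun x => hb (bs7 K hF x))]

lemma T7_le (hF : StPayF) {o : Bool} {h : K.H} (hb : Bs K o h) :
    T7 K o h ≤ (K.Pi1 h).toNat + (K.Bo h).toNat := by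
  rw [Bs_Pi K hb]
  unfold T7
  have e1 := fun x => f1 K (o := o) (h := h) x
  have e2 := fun x => f2 K (o := o) (h := h) x
  have e3 := fun x => f3 K (o := o) (h := h) x
  have e4 := fun x => f4' K (o := o) (h := h) x
  have e5 := fun x => f5 K (o := o) (h := h) x
  have e6 := fun x => f6 K hF (o := o) (h := h) x
  have e7 := fun x => f7 K hF (o := o) (h := h) x
  have n2 := fun x => no2 K (o := o) (h := h) x
  have n4 := fun x => no4 K (o := o) (h := h) x
  have o2 := fun x => outc2 K (o := o) (h := h) x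
  have o3 : K.a3 (!o) (K.rv (K.r (!o) (K.r (!o) h))) = true →
      K.outc h = true ∧ K.m h = 3 ∧ K.Dd (K.r o (K.r o h)) = false := by
    intro x
    obtain ⟨g1, g2, g3, g4, g5, g6⟩ := f4 K (e3 x).1
    exact ⟨g5, g1, g4⟩
  have o4 : K.a4 o (K.rv (K.r o (K.r o (K.rv h)))) = true →
      K.outc (K.rv h) = true ∧ K.m (K.rv h) = 3 := by
    intro x
    obtain ⟨g1, g2, g3, g4, g5⟩ := f4b K (e4 x).1
    exact ⟨g4, g1⟩
  have hB : K.outc h = true → K.outc (K.rv h) = true → K.Bo h = true := Bo_of K hb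
  generalize K.a1 (!o) (K.r o h) = b1 at *
  generalize K.a2 o (K.r (!o) (K.rv h)) = b2 at *
  generalize K.a3 (!o) (K.rv (K.r (!o) (K.r (!o) h))) = b3 at *
  generalize K.a4 o (K.rv (K.r o (K.r o (K.rv h)))) = b4 at *
  generalize K.v1 (!o) (K.r o h) = b5 at *
  generalize K.pB (K.r (!o) (K.rv h), o) = b6 at *
  generalize K.pX (K.r o h, o) = b7 at *
  have p61 : ¬ (b6 = true ∧ b1 = true) := fun ⟨x, y⟩ => by
    have := (e6 x).2.2.2.1; have := (e1 y).1; omega
  have p62 : ¬ (b6 = true ∧ b2 = true) := fun ⟨x, y⟩ => by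
    have u := (e6 x).2.2.2.2.2.2; have v := (e2 y).2.2.2.2.1; rw [u] at v; cases v
  have p63 : ¬ (b6 = true ∧ b3 = true) := fun ⟨x, y⟩ => by
    have u := (e6 x).2.2.2.2.2.1; have v := (o3 y).2.2; rw [u] at v; cases v
  have p64 : ¬ (b6 = true ∧ b4 = true) := fun ⟨x, y⟩ => by
    have := (e6 x).1; have := (o4 y).2; omega
  have p65 : ¬ (b6 = true ∧ b5 = true) := fun ⟨x, y⟩ => by
    have := (e6 x).2.2.2.1; have := (e5 y).1; omega
  have p67 : ¬ (b6 = true ∧ b7 = true) := fun ⟨x, y⟩ => by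
    have := (e6 x).2.2.2.1; have := (e7 y).1; omega
  have p15 : ¬ (b1 = true ∧ b5 = true) := fun ⟨x, y⟩ => by
    have u := (e1 x).2.2.2.2; have v := (e5 y).2.2.2.1; rw [u] at v; cases v
  have p17 : ¬ (b1 = true ∧ b7 = true) := fun ⟨x, y⟩ => by
    have u := (e1 x).2.2.2.2; have v := (e7 y).2.2.2.1; rw [u] at v; cases v
  have p13 : ¬ (b1 = true ∧ b3 = true) := fun ⟨x, y⟩ => by
    have := (e1 x).1; have := (o3 y).2.1; omega
  have p12 : ¬ (b1 = true ∧ b2 = true) := fun ⟨x, y⟩ => n2 y (e1 x).1 (e1 x).2.1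
  have p14 : ¬ (b1 = true ∧ b4 = true) := fun ⟨x, y⟩ => n4 y (e1 x).1 (e1 x).2.1
  have p57 : ¬ (b5 = true ∧ b7 = true) := fun ⟨x, y⟩ => by
    have := (e5 x).2.2.2.2.1; have := (e7 y).2.2.2.2.1; omega
  have p53 : ¬ (b5 = true ∧ b3 = true) := fun ⟨x, y⟩ => by
    have := (e5 x).1; have := (o3 y).2.1; omega
  have p52 : ¬ (b5 = true ∧ b2 = true) := fun ⟨x, y⟩ => n2 y (e5 x).1 (e5 x).2.1
  have p54 : ¬ (b5 = true ∧ b4 = true) := fun ⟨x, y⟩ => n4 y (e5 x).1 (e5 x).2.1
  have p73 : ¬ (b7 = true ∧ b3 = true) := fun ⟨x, y⟩ => by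
    have := (e7 x).1; have := (o3 y).2.1; omega
  have p72 : ¬ (b7 = true ∧ b2 = true) := fun ⟨x, y⟩ => n2 y (e7 x).1 (e7 x).2.1
  have p74 : ¬ (b7 = true ∧ b4 = true) := fun ⟨x, y⟩ => n4 y (e7 x).1 (e7 x).2.1
  have p24 : ¬ (b2 = true ∧ b4 = true) := fun ⟨x, y⟩ => by
    have := (e2 x).1; have := (o4 y).2; omega
  have q32 : b3 = true → b2 = true → K.Bo h = true := fun x y => hB (o3 x).1 (o2 y)
  have q34 : b3 = true → b4 = true → K.Bo h = true := fun x y => hB (o3 x).1 (o4 y).1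
  clear e1 e2 e3 e4 e5 e6 e7 n2 n4 o2 o3 o4 hB hb
  generalize K.Bo h = B at *
  clear hF
  cases b6
  · cases b1
    · cases b5
      · cases b7
        · cases b2
          · cases b3
            · cases b4 <;> simp
            · cases b4
              · simp
              · rw [q34 rfl rfl]; simp
          · cases b4
            · cases b3
              · simp
              · rw [q32 rfl rfl]; simp
            · exact (p24 ⟨rfl, rfl⟩).elim
        · cases b2
          · cases b3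
            · cases b4
              · simp
              · exact (p74 ⟨rfl, rfl⟩).elim
            · exact (p73 ⟨rfl, rfl⟩).elim
          · exact (p72 ⟨rfl, rfl⟩).elim
      · cases b7
        · cases b2
          · cases b3
            · cases b4
              · simp
              · exact (p54 ⟨rfl, rfl⟩).elim
            · exact (p53 ⟨rfl, rfl⟩).elim
          · exact (p52 ⟨rfl, rfl⟩).elim
        · exact (p57 ⟨rfl, rfl⟩).elim
    · cases b5
      · cases b7
        · cases b2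
          · cases b3
            · cases b4
              · simp
              · exact (p14 ⟨rfl, rfl⟩).elim
            · exact (p13 ⟨rfl, rfl⟩).elim
          · exact (p12 ⟨rfl, rfl⟩).elim
        · exact (p17 ⟨rfl, rfl⟩).elim
      · exact (p15 ⟨rfl, rfl⟩).elim
  · cases b1
    · cases b2
      · cases b3
        · cases b4
          · cases b5
            · cases b7
              · simp
              · exact (p67 ⟨rfl, rfl⟩).elim
            · exact (p65 ⟨rfl, rfl⟩).elim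
          · exact (p64 ⟨rfl, rfl⟩).elim
        · exact (p63 ⟨rfl, rfl⟩).elim
      · exact (p62 ⟨rfl, rfl⟩).elim
    · exact (p61 ⟨rfl, rfl⟩).elim

theorem tPE (hF : StPayF) : StPE := by
  intro n K h _
  have e : K.askE h + K.askV h = T7 K true h + T7 K false h := by
    unfold KM.askE KM.askV T7
    simp only [Bool.not_true, Bool.not_false]
    ring
  rw [e]
  by_cases h1 : Bs K true h
  · rw [T7_zero K hF (o := false) (fun x => Bs_other K h1 x), Nat.add_zero]
    exact T7_le K hF h1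
  · rw [T7_zero K hF h1, Nat.zero_add]
    by_cases h2 : Bs K false h
    · exact T7_le K hF h2
    · rw [T7_zero K hF h2]
      exact Nat.zero_le _

end Pool.Agent.Helper24.KB
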